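import Pool.Agent.helper73.TC.YDefs
import Pool.Agent.helper86.TC.R

/-!
# TY-9: the geometric realization of the complex on 20 vertices in `ℝ^10`
-/

set_option autoImplicit false
open Topology

noncomputable section
namespace Pool.Agent.helper73.TC

namespace Y9

/-! ### kernel checks -/

lemma chk_anti : (Fl.K20.all fun m => (List.range 10).all fun j =>
    !(m.testBit (2 * j) && m.testBit (2 * j + 1))) = true := by decide +kernel

lemma chk_vert : ((List.range 20).all fun v => Fl.K20.any fun m => m.testBit v) = true := by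
  decide +kernel

/-- the even vertex of the pair `j` -/
def e0 (j : Fin 10) : Fin 20 := ⟨2 * j.1, by omega⟩
/-- the odd vertex of the pair `j` -/
def e1 (j : Fin 10) : Fin 20 := ⟨2 * j.1 + 1, by omega⟩

lemma e0_ne_e1 (j : Fin 10) : e0 j ≠ e1 j := by
  intro h
  have := congrArg Fin.val h
  simp only [e0, e1] at this
  omega

lemma eq_e (v : Fin 20) : ∃ j : Fin 10, v = e0 j ∨ v = e1 j := by
  refine ⟨⟨v.1 / 2, by omega⟩, ?_⟩
  rcases Nat.mod_two_eq_zero_or_one v.1 with h | h
  · left
    ext
    simp only [e0]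
    omega
  · right
    ext
    simp only [e1]
    omega

lemma K_down : DownClosed K := by
  rintro s ⟨m, hm, h⟩ t ht
  exact ⟨m, hm, fun i hi => h i (ht hi)⟩

lemma K_pair {s : Finset (Fin 20)} (hs : s ∈ K) (j : Fin 10) : ¬ (e0 j ∈ s ∧ e1 j ∈ s) := by
  rintro ⟨h0, h1⟩
  obtain ⟨m, hm, h⟩ := hs
  have h2 := List.all_eq_true.1 chk_anti m hm
  have h3 := List.all_eq_true.1 h2 j.1 (List.mem_range.2 j.2)
  have h4 := h _ h0
  have h5 := h _ h1
  simp only [e0, e1] at h4 h5
  rw [h4, h5] at h3
  exact absurd h3 (by decide)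

lemma K_single (v : Fin 20) : ({v} : Finset (Fin 20)) ∈ K := by
  have h2 := List.all_eq_true.1 chk_vert v.1 (List.mem_range.2 v.2)
  obtain ⟨m, hm, h⟩ := List.any_eq_true.1 h2
  exact ⟨m, hm, fun i hi => by rw [Finset.mem_singleton.1 hi]; exact h⟩

/-! ### coordinates -/

lemma pt_apply (v : Fin 20) (j : Fin 10) :
    (pt v) j = if v = e0 j then 1 else if v = e1 j then -1 else 0 := by
  unfold pt
  rw [PiLp.smul_apply, EuclideanSpace.single_apply, smul_eq_mul]
  rcases Nat.mod_two_eq_zero_or_one v.1 with h | h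
  · have h2 : (-1 : ℝ) ^ v.1 = 1 := Even.neg_one_pow (Nat.even_iff.2 h)
    rw [h2, one_mul]
    have h3 : v ≠ e1 j := by
      intro h4
      have := congrArg Fin.val h4
      simp only [e1] at this
      omega
    rw [if_neg h3]
    by_cases h5 : v = e0 j
    · rw [if_pos h5, if_pos]
      have := congrArg Fin.val h5
      simp only [e0] at this
      ext
      simp only
      omega
    · rw [if_neg h5, if_neg]
      intro h6
      apply h5
      have := congrArg Fin.val h6
      simp only at this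
      ext
      simp only [e0]
      omega
  · have h2 : (-1 : ℝ) ^ v.1 = -1 := Odd.neg_one_pow (Nat.odd_iff.2 h)
    rw [h2]
    have h3 : v ≠ e0 j := by
      intro h4
      have := congrArg Fin.val h4
      simp only [e0] at this
      omega
    rw [if_neg h3]
    by_cases h5 : v = e1 j
    · rw [if_pos h5, if_pos, mul_one]
      have := congrArg Fin.val h5
      simp only [e1] at this
      ext
      simp only
      omega
    · rw [if_neg h5, if_neg, mul_zero]
      intro h6
      apply h5
      have := congrArg Fin.val h6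
      simp only at this
      ext
      simp only [e1]
      omega

lemma sum_apply (a : Fin 20 → ℝ) (j : Fin 10) :
    (∑ v, a v • pt v) j = a (e0 j) - a (e1 j) := by
  rw [WithLp.ofLp_sum, Finset.sum_apply]
  simp_rw [PiLp.smul_apply, pt_apply, smul_eq_mul, mul_ite, mul_neg, mul_one, mul_zero]
  have h1 : ∀ v : Fin 20, (if v = e0 j then a v else if v = e1 j then - a v else 0) =
      (if v = e0 j then a (e0 j) else 0) + (if v = e1 j then - a (e1 j) else 0) := by
    intro v
    by_cases h : v = e0 j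
    · rw [if_pos h, if_pos h, if_neg (by rw [h]; exact e0_ne_e1 j), h, add_zero]
    · rw [if_neg h, if_neg h, zero_add]
      by_cases h' : v = e1 j
      · rw [if_pos h', if_pos h', h']
      · rw [if_neg h', if_neg h']
  rw [Finset.sum_congr rfl fun v _ => h1 v, Finset.sum_add_distrib, Finset.sum_ite_eq',
    Finset.sum_ite_eq']
  simp [sub_eq_add_neg]

/-- uniqueness of the coefficients -/
lemma coeff_unique {s t : Finset (Fin 20)} (hs : s ∈ K) (ht : t ∈ K) {a b : Fin 20 → ℝ}
    (ha : ∀ v, 0 ≤ a v) (hb : ∀ v, 0 ≤ b v) (has : ∀ v, v ∉ s → a v = 0)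
    (hbt : ∀ v, v ∉ t → b v = 0) (h : ∑ v, a v • pt v = ∑ v, b v • pt v) : a = b := by
  have key : ∀ j : Fin 10, a (e0 j) = b (e0 j) ∧ a (e1 j) = b (e1 j) := by
    intro j
    have h1 : a (e0 j) - a (e1 j) = b (e0 j) - b (e1 j) := by
      rw [← sum_apply, ← sum_apply, h]
    have h2 : a (e0 j) = 0 ∨ a (e1 j) = 0 := by
      by_contra hcon
      push Not at hcon
      exact K_pair hs j ⟨by_contra fun hh => hcon.1 (has _ hh), by_contra fun hh => hcon.2 (has _ hh)⟩
    have h3 : b (e0 j) = 0 ∨ b (e1 j) = 0 := by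
      by_contra hcon
      push Not at hcon
      exact K_pair ht j ⟨by_contra fun hh => hcon.1 (hbt _ hh), by_contra fun hh => hcon.2 (hbt _ hh)⟩
    have a0 := ha (e0 j)
    have a1 := ha (e1 j)
    have b0 := hb (e0 j)
    have b1 := hb (e1 j)
    rcases h2 with h2 | h2 <;> rcases h3 with h3 | h3 <;> constructor <;> linarith
  funext v
  obtain ⟨j, hv | hv⟩ := eq_e v
  · rw [hv]; exact (key j).1
  · rw [hv]; exact (key j).2

/-- a real linear relation on a face is trivial -/
lemma coeff_zero {s : Finset (Fin 20)} (hs : s ∈ K) {a : Fin 20 → ℝ}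
    (has : ∀ v, v ∉ s → a v = 0) (h : ∑ v, a v • pt v = 0) : a = 0 := by
  have key : ∀ j : Fin 10, a (e0 j) = 0 ∧ a (e1 j) = 0 := by
    intro j
    have h1 : a (e0 j) - a (e1 j) = 0 := by
      rw [← sum_apply, h]; rfl
    have h2 : a (e0 j) = 0 ∨ a (e1 j) = 0 := by
      by_contra hcon
      push Not at hcon
      exact K_pair hs j ⟨by_contra fun hh => hcon.1 (has _ hh), by_contra fun hh => hcon.2 (has _ hh)⟩
    rcases h2 with h2 | h2 <;> constructor <;> linarith
  funext v
  obtain ⟨j, hv | hv⟩ := eq_e v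
  · rw [hv]; exact (key j).1
  · rw [hv]; exact (key j).2

lemma pt_injective : Function.Injective pt := by
  intro v w h
  have h1 : ∀ j, (if v = e0 j then (1 : ℝ) else if v = e1 j then -1 else 0) =
      if w = e0 j then 1 else if w = e1 j then -1 else 0 := by
    intro j
    rw [← pt_apply, ← pt_apply, h]
  obtain ⟨j, hv | hv⟩ := eq_e v
  · have := h1 j
    rw [if_pos hv] at this
    split_ifs at this with h2 h3
    · rw [hv, h2]
    · norm_num at this
    · norm_num at this
  · have := h1 j
    rw [if_neg (by rw [hv]; exact (e0_ne_e1 j).symm), if_pos hv] at this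
    split_ifs at this with h2 h3
    · norm_num at this
    · rw [hv, h3]
    · norm_num at this

/-- the support of a point of the realization -/
lemma supp_mem (w : Real K) : (Finset.univ.filter fun v => 0 < (w.1 : Fin 20 → ℝ) v) ∈ K := w.2

lemma w_nonneg (w : Real K) (v : Fin 20) : 0 ≤ (w.1 : Fin 20 → ℝ) v := w.1.2.1 v

lemma w_sum (w : Real K) : ∑ v, (w.1 : Fin 20 → ℝ) v = 1 := w.1.2.2

lemma w_supp (w : Real K) (v : Fin 20)
    (hv : v ∉ Finset.univ.filter fun v => 0 < (w.1 : Fin 20 → ℝ) v) :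
    (w.1 : Fin 20 → ℝ) v = 0 := by
  rw [Finset.mem_filter] at hv
  push Not at hv
  exact le_antisymm (hv (Finset.mem_univ v)) (w_nonneg w v)

lemma emb_injective : Function.Injective emb := by
  intro w w' h
  apply Subtype.ext
  apply Subtype.ext
  exact coeff_unique (supp_mem w) (supp_mem w') (w_nonneg w) (w_nonneg w') (w_supp w) (w_supp w') h

lemma emb_continuous : Continuous emb := by
  unfold emb
  refine continuous_finsetSum _ fun v _ => ?_
  exact ((continuous_apply v).comp (continuous_subtype_val.comp continuous_subtype_val)).smul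
    continuous_const

/-- the embedding of the vertex set -/
def ptE : Fin 20 ↪ EuclideanSpace ℝ (Fin 10) := ⟨pt, pt_injective⟩

lemma mem_hull (s : Finset (Fin 20)) (x : EuclideanSpace ℝ (Fin 10)) :
    x ∈ convexHull ℝ (s.map ptE : Set (EuclideanSpace ℝ (Fin 10))) ↔
      ∃ a : Fin 20 → ℝ, (∀ v, 0 ≤ a v) ∧ (∀ v, v ∉ s → a v = 0) ∧ ∑ v, a v = 1 ∧
        ∑ v, a v • pt v = x := by
  classical
  constructor
  · intro hx
    rw [Finset.mem_convexHull'] at hx
    obtain ⟨w, h0, h1, h2⟩ := hx
    rw [Finset.sum_map] at h1 h2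
    refine ⟨fun v => if v ∈ s then w (pt v) else 0, fun v => ?_, fun v hv => if_neg hv, ?_, ?_⟩
    · by_cases hv : v ∈ s
      · simp only [if_pos hv]
        exact h0 _ (Finset.mem_map_of_mem ptE hv)
      · simp [if_neg hv]
    · rw [← h1, Finset.sum_ite_mem, Finset.univ_inter]
      rfl
    · simp_rw [ite_smul, zero_smul]
      rw [← h2, Finset.sum_ite_mem, Finset.univ_inter]
      rfl
  · rintro ⟨a, h0, hs, h1, rfl⟩
    have e1 : ∑ v, a v • pt v = ∑ v ∈ s, a v • pt v := by
      refine (Finset.sum_subset (Finset.subset_univ s) fun v _ hv => ?_).symm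
      rw [hs v hv, zero_smul]
    have e2 : ∑ v ∈ s, a v = 1 := by
      rw [← h1]
      exact Finset.sum_subset (Finset.subset_univ s) fun v _ hv => hs v hv
    rw [e1]
    refine (convex_convexHull ℝ _).sum_mem (fun v _ => h0 v) e2 fun v hv => ?_
    exact subset_convexHull ℝ _ (Finset.mem_coe.2 (Finset.mem_map_of_mem ptE hv))

lemma indep {s : Finset (Fin 20)} (hs : s ∈ K) :
    AffineIndependent ℝ ((↑) : {x // x ∈ s.map ptE} → EuclideanSpace ℝ (Fin 10)) := by
  classical
  have h1 : AffineIndependent ℝ (fun v : s => pt v) := by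
    rw [affineIndependent_iff]
    intro u w _ h e he
    set a : Fin 20 → ℝ := fun v => if hv : v ∈ s then (if (⟨v, hv⟩ : s) ∈ u then w ⟨v, hv⟩ else 0) else 0
      with ha
    have h2 : a = 0 := by
      refine coeff_zero hs (fun v hv => by simp [ha, hv]) ?_
      rw [← h]
      have e1 : ∑ v, a v • pt v = ∑ v ∈ s, a v • pt v := by
        refine (Finset.sum_subset (Finset.subset_univ s) fun v _ hv => ?_).symm
        simp [ha, hv]
      rw [e1, ← Finset.sum_coe_sort s (fun v => a v • pt v)]
      have e2 : ∀ v : s, a v • pt v = if v ∈ u then w v • pt v else 0 := by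
        intro v
        simp only [ha, v.2, dif_pos, Subtype.coe_eta]
        split_ifs <;> simp
      rw [Finset.sum_congr rfl fun v _ => e2 v, Finset.sum_ite_mem, Finset.univ_inter]
    have h3 := congrFun h2 e
    simpa [ha, he] using h3
  have h2 := h1.range
  refine h2.mono ?_
  intro x hx
  obtain ⟨v, hv, rfl⟩ := Finset.mem_map.1 (Finset.mem_coe.1 hx)
  exact ⟨⟨v, hv⟩, rfl⟩

end Y9

open Y9

theorem emb_embedding : IsEmbedding emb := by
  have := compact_Real K K_down
  exact (emb_continuous.isClosedEmbedding emb_injective).isEmbedding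

theorem emb_complex : ∃ C : Geometry.SimplicialComplex ℝ (EuclideanSpace ℝ (Fin 10)),
    C.faces.Finite ∧ C.space = Set.range emb := by
  classical
  have hdown : ∀ s ∈ K, ∀ S : Finset (EuclideanSpace ℝ (Fin 10)), S ⊆ s.map ptE →
      ∃ t ∈ K, S = t.map ptE ∧ t ⊆ s := by
    intro s hs S hS
    refine ⟨s.filter fun v => pt v ∈ S, K_down s hs _ (Finset.filter_subset _ _), ?_,
      Finset.filter_subset _ _⟩
    ext x
    rw [Finset.mem_map]
    constructor
    · intro hx
      obtain ⟨v, hv, rfl⟩ := Finset.mem_map.1 (hS hx)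
      exact ⟨v, Finset.mem_filter.2 ⟨hv, hx⟩, rfl⟩
    · rintro ⟨v, hv, rfl⟩
      exact (Finset.mem_filter.1 hv).2
  refine ⟨Geometry.SimplicialComplex.ofErase {S | ∃ s ∈ K, S = s.map ptE} ?_ ?_ ?_, ?_, ?_⟩
  · rintro _ ⟨s, hs, rfl⟩
    exact indep hs
  · rintro _ S' hSS ⟨s, hs, rfl⟩
    obtain ⟨t, ht, e, -⟩ := hdown s hs S' hSS
    exact ⟨t, ht, e⟩
  · rintro _ ⟨s, hs, rfl⟩ _ ⟨t, ht, rfl⟩ x ⟨hx1, hx2⟩
    obtain ⟨a, ha0, has, ha1, rfl⟩ := (mem_hull s x).1 hx1
    obtain ⟨b, hb0, hbt, hb1, hab⟩ := (mem_hull t _).1 hx2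
    have hab' : a = b := coeff_unique hs ht ha0 hb0 has hbt hab.symm
    have h1 : ∑ v, a v • pt v ∈ convexHull ℝ (((s ∩ t).map ptE : Finset _) :
        Set (EuclideanSpace ℝ (Fin 10))) := by
      refine (mem_hull _ _).2 ⟨a, ha0, fun v hv => ?_, ha1, rfl⟩
      rw [Finset.mem_inter] at hv
      by_cases h1 : v ∈ s
      · rw [hab']
        exact hbt v fun h2 => hv ⟨h1, h2⟩
      · exact has v h1
    refine convexHull_mono ?_ h1
    rw [Finset.map_inter, Finset.coe_inter]
  · refine Set.Finite.subset (Set.Finite.image (fun s : Finset (Fin 20) => s.map ptE)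
      (Set.toFinite (Set.univ : Set (Finset (Fin 20))))) ?_
    rintro S ⟨⟨s, -, rfl⟩, -⟩
    exact ⟨s, Set.mem_univ _, rfl⟩
  · ext x
    rw [Geometry.SimplicialComplex.mem_space_iff]
    constructor
    · rintro ⟨S, ⟨⟨s, hs, rfl⟩, -⟩, hx⟩
      obtain ⟨a, ha0, has, ha1, rfl⟩ := (mem_hull s x).1 hx
      refine ⟨⟨⟨a, ha0, ha1⟩, ?_⟩, rfl⟩
      refine K_down s hs _ fun v hv => ?_
      by_contra h
      have h1 : (0 : ℝ) < a v := (Finset.mem_filter.1 hv).2
      rw [has v h] at h1
      exact lt_irrefl _ h1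
    · rintro ⟨w, rfl⟩
      refine ⟨(Finset.univ.filter fun v => 0 < (w.1 : Fin 20 → ℝ) v).map ptE,
        ⟨⟨_, supp_mem w, rfl⟩, ?_⟩, ?_⟩
      · intro h
        rw [Set.mem_singleton_iff, Finset.map_eq_empty] at h
        have h1 := w_sum w
        have h2 : ∑ v, (w.1 : Fin 20 → ℝ) v = 0 :=
          Finset.sum_eq_zero fun v _ => w_supp w v (by rw [h]; simp)
        rw [h2] at h1
        exact zero_ne_one h1
      · exact (mem_hull _ _).2 ⟨_, w_nonneg w, w_supp w, w_sum w, rfl⟩

lemma Y9.pt_mem (v : Fin 20) : pt v ∈ Set.range emb := by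
  classical
  refine ⟨⟨⟨Pi.single v 1, single_mem_stdSimplex ℝ v⟩, ?_⟩, ?_⟩
  · refine K_down _ (K_single v) _ fun u hu => ?_
    have h1 : (0 : ℝ) < (Pi.single v 1 : Fin 20 → ℝ) u := (Finset.mem_filter.1 hu).2
    rw [Finset.mem_singleton]
    by_contra h
    rw [Pi.single_eq_of_ne h] at h1
    exact lt_irrefl _ h1
  · change ∑ u, (Pi.single v 1 : Fin 20 → ℝ) u • pt u = pt v
    rw [Finset.sum_eq_single v]
    · rw [Pi.single_eq_same, one_smul]
    · intro u _ hu
      rw [Pi.single_eq_of_ne hu, zero_smul]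
    · intro h
      exact absurd (Finset.mem_univ v) h

theorem emb_span : affineSpan ℝ (Set.range emb) = ⊤ := by
  rw [AffineSubspace.affineSpan_eq_top_iff_vectorSpan_eq_top_of_nonempty ℝ _ _ ⟨_, pt_mem 0⟩]
  rw [eq_top_iff]
  intro x _
  have hx : x = ∑ j, x j • EuclideanSpace.single j (1 : ℝ) := by
    ext i
    rw [WithLp.ofLp_sum, Finset.sum_apply, Finset.sum_eq_single i]
    · simp
    · intro j _ hj
      simp [EuclideanSpace.single_apply, hj.symm]
    · simp
  rw [hx]
  refine Submodule.sum_mem _ fun j _ => Submodule.smul_mem _ _ ?_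
  have h1 := vsub_mem_vectorSpan ℝ (pt_mem (e0 j)) (pt_mem (e1 j))
  have h2 : EuclideanSpace.single j (1 : ℝ) = (1 / 2 : ℝ) • (pt (e0 j) -ᵥ pt (e1 j)) := by
    ext i
    rw [PiLp.smul_apply, vsub_eq_sub, PiLp.sub_apply, pt_apply, pt_apply,
      EuclideanSpace.single_apply]
    by_cases h : i = j
    · rw [if_pos h, h, if_pos rfl, if_neg (e0_ne_e1 j).symm, if_pos rfl]
      norm_num
    · have ne1 : e0 j ≠ e0 i := by
        intro h'
        have := congrArg Fin.val h'
        simp only [e0] at this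
        exact h (Fin.ext (by omega))
      have ne2 : e0 j ≠ e1 i := by
        intro h'
        have := congrArg Fin.val h'
        simp only [e0, e1] at this
        omega
      have ne3 : e1 j ≠ e0 i := by
        intro h'
        have := congrArg Fin.val h'
        simp only [e0, e1] at this
        omega
      have ne4 : e1 j ≠ e1 i := by
        intro h'
        have := congrArg Fin.val h'
        simp only [e1] at this
        exact h (Fin.ext (by omega))
      rw [if_neg h, if_neg ne1, if_neg ne2, if_neg ne3, if_neg ne4]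
      norm_num
  rw [h2]
  exact Submodule.smul_mem _ _ h1

end Pool.Agent.helper73.TC
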